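import Mathlib
import Pool.Agent.X73.HYF.Main
import Pool.Agent.X73.CF.Compat
import Pool.Agent.Y388.CF.Transversal

set_option autoImplicit false

/-!
# The Havet-Yu conjecture for `F`-free graphs and `p` a little more than `c(F) Δ / (2 log Δ)`

Proof.  The vertices are distributed at random into `2 m` types, `m` low ones and `m` high ones,
with `m` of order `log D`, such that every vertex has at most `w` neighbours in every type, where
`w` is close to `D / (2 m)` (starting modules `Pool.Agent.TH104.HY`).  The graph inside a type is
`F`-free of maximum degree at most `w` and so has a colouring with `(c(F) + o(1)) w / log w`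
colours.  The vertices of the low types get the smallest labels, those of the high types the
largest labels, and the edges between two given types get labels in an interval of length `w + 1`.
-/

namespace Pool.Agent.Results.MP_b8729f_co.ForbiddenSubgraphs

open Pool.Agent.TH855

/-- `TotalLabeling G p l`: the graph `G` has a `(p,1)`-total labeling of span `l`, that is, labels
`0, …, l` for the vertices (`fV`) and the edges (`fE`) such that adjacent vertices get different
labels, edges sharing an endpoint get different labels, and the labels of a vertex and of an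
incident edge differ by at least `p`. -/
def TotalLabeling {V : Type} (G : SimpleGraph V) (p l : ℕ) : Prop :=
  ∃ (fV : V → ℕ) (fE : Sym2 V → ℕ),
    (∀ v, fV v ≤ l) ∧ (∀ e ∈ G.edgeSet, fE e ≤ l) ∧
    (∀ u v, G.Adj u v → fV u ≠ fV v) ∧
    (∀ u v w, G.Adj u v → G.Adj u w → v ≠ w → fE s(u, v) ≠ fE s(u, w)) ∧
    (∀ u v, G.Adj u v → (p : ℤ) ≤ |(fV u : ℤ) - (fE s(u, v) : ℤ)|)

/-- `HY F b`: for every `ε > 0` there is `D₀` such that for all `D ≥ D₀` and all
`p ≥ (b + ε) D / log D`, every finite graph `G` with all degrees at most `D` that contains no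
subgraph isomorphic to `F` has a `(p,1)`-total labeling of span `D + 2 p - 1`. -/
def HY {U : Type} (F : SimpleGraph U) (b : ℝ) : Prop :=
  ∀ ε : ℝ, 0 < ε → ∃ D₀ : ℕ, ∀ (V : Type) [Fintype V] (G : SimpleGraph V) (D p : ℕ), D₀ ≤ D →
    (∀ v, (G.neighborSet v).ncard ≤ D) → F.Free G → (b + ε) * (D / Real.log D) ≤ p →
    TotalLabeling G p (D + 2 * p - 1)

/-- `F` is almost bipartite: it is bipartite, or it becomes bipartite on deleting one vertex. -/
def NearBipartite {W : Type} (F : SimpleGraph W) : Prop :=
  F.Colorable 2 ∨ ∃ x, (F.induce {y | y ≠ x}).Colorable 2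

/-- `Blocks F S`: the vertex set `S` is obtained from the empty set by successively adding sets `B`
of vertices such that `F[B]` is bipartite or becomes bipartite when any one vertex is deleted, `B`
meets the union of the earlier sets in at most one vertex, and all edges of `F` between `B` and this
union lie inside `B`. For `S` the set of all vertices this says that every block of `F` is bipartite
or becomes bipartite when any one vertex is deleted (for instance, is an odd cycle). -/
inductive Blocks {W : Type} (F : SimpleGraph W) : Set W → Prop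
  | empty : Blocks F ∅
  | glue (S B : Set W) : Blocks F S → (S ∩ B).ncard ≤ 1 →
      (∀ x ∈ S \ B, ∀ y ∈ B \ S, ¬ F.Adj x y) →
      ((F.induce B).Colorable 2 ∨ ∀ v ∈ B, (F.induce (B \ {v})).Colorable 2) → Blocks F (S ∪ B)

theorem blocks_built {W : Type} [Finite W] (F : SimpleGraph W) (S : Set W) (h : Blocks F S) :
    Pool.Agent.X73.CF.Built F 1 S := by
  induction h with
  | empty => exact .empty
  | glue S B _ h1 h2 h3 ih =>
    refine .glue S B ih h1 ?_ h2 h3
    intro a ha b hb hab
    exact absurd ((Set.ncard_le_one_iff (Set.toFinite _)).1 h1 ha hb) hab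

theorem main {U : Type} (F : SimpleGraph U) (a : ℝ) (ha : 0 ≤ a)
    (h : c F ≤ ENNReal.ofReal a) : HY F (a / 2) := by
  classical
  intro ε hε
  obtain ⟨D₀, h⟩ := Pool.Agent.X73.HYF.ff_main F a ha ((upTo_of_c_le F a ha h).gb ha) ε hε
  refine ⟨D₀, ?_⟩
  intro V _ G D p h1 h2 h3 h4
  refine h V G D p h1 ?_ h3 h4
  intro v
  have := h2 v
  rwa [Set.ncard_eq_toFinset_card', ← SimpleGraph.neighborFinset_def,
    SimpleGraph.card_neighborFinset_eq_degree] at this

/-- Let `c(F)` be the limsup of the maxima of `χ(G) / (Δ / log Δ)` over the `F`-free graphs `G` of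
maximum degree `Δ`. (1) If `c(F) ≤ a` then the Havet-Yu conjecture holds for the `F`-free graphs of
large maximum degree `D` and `p ≥ (a / 2 + ε) D / log D`. In particular it holds for the `F`-free
graphs of large maximum degree `D` and all `p ≥ (b + ε) D / log D`, where (2) `b = 1/2` if `F` is
bipartite or becomes bipartite on deleting one vertex; (3) `b = 1/2` if every block of `F` is
bipartite or becomes bipartite on deleting any one vertex (for instance, is an odd cycle);
(4) `b = 1` if `F` has treewidth at most two; (5) `b = k / 2` if `F - X` is bipartite for an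
independent set `X` of vertices of degree at most `k ≥ 1`. -/
theorem result :
    (∀ (U : Type) (F : SimpleGraph U) (a : ℝ), 0 ≤ a → c F ≤ ENNReal.ofReal a →
      HY F (a / 2)) ∧
    (∀ (U : Type) [Fintype U] (F : SimpleGraph U), NearBipartite F → HY F (1 / 2)) ∧
    (∀ (U : Type) [Fintype U] (F : SimpleGraph U), Blocks F Set.univ → HY F (1 / 2)) ∧
    (∀ (U : Type) [Fintype U] (F : SimpleGraph U), TreewidthLe F 2 → HY F 1) ∧
    (∀ (U : Type) [Fintype U] (F : SimpleGraph U) (X : Set U) (k : ℕ), 1 ≤ k →
      (∀ a ∈ X, ∀ b ∈ X, ¬ F.Adj a b) → (F.induce Xᶜ).Colorable 2 →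
      (∀ x ∈ X, (F.neighborSet x).ncard ≤ k) → HY F (k / 2)) := by
  refine ⟨?_, ?_, ?_, ?_, ?_⟩
  · intro U F a ha h
    exact main F a ha h
  · intro U _ F h
    refine main F 1 zero_le_one ?_
    rw [ENNReal.ofReal_one]
    exact Pool.Agent.Y388.CF.c_almost_bipartite F h
  · intro U _ F h
    refine main F 1 zero_le_one ?_
    rw [ENNReal.ofReal_one]
    have := Pool.Agent.X73.CF.built_bound F 1 le_rfl (by omega) (blocks_built F _ h)
    exact_mod_cast this
  · intro U _ F h
    have h2 := main F 2 (by norm_num) (by
      have h1 := treewidth_bound F 2 (by omega) h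
      refine h1.trans ?_
      calc ((2 : ℕ) : ENNReal) * c (⊤ : SimpleGraph (Fin (2 + 1))) ≤ (2 : ℕ) * 1 :=
            mul_le_mul_right c_triangle_le_one _
        _ = ENNReal.ofReal 2 := by norm_num)
    have e : (2 : ℝ) / 2 = 1 := by norm_num
    rwa [e] at h2
  · intro U _ F X k hk hX hb hdeg
    refine main F k (Nat.cast_nonneg _) ?_
    rw [ENNReal.ofReal_natCast]
    exact Pool.Agent.Y388.CF.bounded_transversal F X k hk (fun a b ha hb' => hX a ha b hb') hb hdeg

end Pool.Agent.Results.MP_b8729f_co.ForbiddenSubgraphs
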