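import Mathlib
import Pool.Agent.X211.LX.Forb

set_option autoImplicit false

/-!
# Extending partial (p,1)-total labellings, also from lists

Let `G` be a finite graph of maximum degree `Δ`, `p ≥ 1`, and let a subgraph `H` of `G` of maximum
degree at most `t` be labelled (its vertices and its edges, with labels `0, …, k`, correctly with
respect to `G`). If `k ≥ Δ + 334 (2 p - 1 + t + q) log (Δ + 1)`, this labelling extends to a
`(p,1)`-total labelling of `G` of span `k`, where every other vertex gets a label from a prescribed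
list of `Δ + 1` labels and every other edge a label from a prescribed list which misses at most `q`
of the labels `0, …, k`. For instance every proper vertex colouring of `G` with `k + 1` colours
extends to a `(p,1)`-total labelling of span `k` (`H` spanning without edges, `t = q = 0`).

Proof. Label the vertices greedily. Colour the edges properly with `Δ + 1` colours (Vizing) and
randomise this colouring by flipping random short Kempe chains (Lovász local lemma; the theorem on
random Kempe flips of the starting library), where the tests are all forbidden labels of an edge.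
After the removal of `O(log Δ)` edges at every vertex all but `O((p + t + q) log Δ)` edges at every
vertex are labelled correctly. The exceptional edges are labelled greedily with new labels.
-/

namespace Pool.Agent.Results.MP_b8729f_co.PartialLabellings

/-- The vertex labels `c` and the edge labels `f` form a `(p,1)`-total labelling of `G` with span
at most `k`: adjacent vertices get different labels, edges with a common end get different labels,
the labels of an edge and of its ends differ by at least `p`, and all labels are at most `k`. -/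
def TotalLabelling {V : Type} (G : SimpleGraph V) (p k : ℕ) (c : V → ℕ) (f : Sym2 V → ℕ) : Prop :=
  (∀ u v, G.Adj u v → c u ≠ c v) ∧
  (∀ u v w, G.Adj u v → G.Adj u w → v ≠ w → f s(u, v) ≠ f s(u, w)) ∧
  (∀ u v, G.Adj u v → (p : ℤ) ≤ |(f s(u, v) : ℤ) - c u|) ∧
  (∀ v, c v ≤ k) ∧ ∀ e ∈ G.edgeSet, f e ≤ k

/-- `(c, f)` is a `(p,1)`-total labelling of the subgraph `H` of `G` which is correct with respect
to `G`: only the values of `c` at the vertices of `H` and of `f` at the edges of `H` matter;
vertices of `H` which are adjacent in `G` get different labels, edges of `H` with a common end get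
different labels, the labels of an edge of `H` and of its ends differ by at least `p`. -/
def PartialTotalLabelling {V : Type} {G : SimpleGraph V} (H : G.Subgraph) (p k : ℕ) (c : V → ℕ)
    (f : Sym2 V → ℕ) : Prop :=
  (∀ u ∈ H.verts, ∀ v ∈ H.verts, G.Adj u v → c u ≠ c v) ∧
  (∀ u v w, H.Adj u v → H.Adj u w → v ≠ w → f s(u, v) ≠ f s(u, w)) ∧
  (∀ u v, H.Adj u v → (p : ℤ) ≤ |(f s(u, v) : ℤ) - c u|) ∧
  (∀ v ∈ H.verts, c v ≤ k) ∧ ∀ e ∈ H.edgeSet, f e ≤ k

/-- **Extension of partial `(p,1)`-total labellings from lists.**  Let `G` be a finite graph of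
maximum degree `Δ`, `p ≥ 1`, `H` a subgraph of `G` with all degrees at most `t`, and
`k ≥ Δ + 334 (2 p - 1 + t + q) log (Δ + 1)`. Let every vertex `v` outside `H` have a list `M v`
of at least `Δ + 1` labels `≤ k` and every edge `e` a list `L e` which misses at most `q` of the
labels `0, …, k`. Then every `(p,1)`-total labelling `(c₀, f₀)` of `H` with span at most `k`
which is correct with respect to `G` extends to a `(p,1)`-total labelling of `G` with span at most
`k` which takes the labels of the vertices and edges outside `H` from the lists. -/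
theorem result (V : Type) [Fintype V] (G : SimpleGraph V) [DecidableRel G.Adj] (p t q : ℕ)
    (hp : 1 ≤ p) (H : G.Subgraph) (ht : ∀ v, (H.neighborSet v).ncard ≤ t) (k : ℕ)
    (hk : (G.maxDegree : ℝ) + 334 * (2 * p - 1 + t + q) * Real.log (G.maxDegree + 1) ≤ k)
    (M : V → Finset ℕ) (hM : ∀ v, v ∉ H.verts → G.maxDegree + 1 ≤ (M v).card)
    (hMk : ∀ v, ∀ x ∈ M v, x ≤ k)
    (L : Sym2 V → Finset ℕ) (hL : ∀ e ∈ G.edgeSet, (Finset.range (k + 1) \ L e).card ≤ q)
    (c₀ : V → ℕ) (f₀ : Sym2 V → ℕ) (h0 : PartialTotalLabelling H p k c₀ f₀) :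
    ∃ (c : V → ℕ) (f : Sym2 V → ℕ), TotalLabelling G p k c f ∧
      (∀ v ∈ H.verts, c v = c₀ v) ∧ (∀ v, v ∉ H.verts → c v ∈ M v) ∧
      (∀ e ∈ H.edgeSet, f e = f₀ e) ∧ ∀ e ∈ G.edgeSet, e ∉ H.edgeSet → f e ∈ L e := by
  classical
  obtain ⟨h1, h2, h3, h4, h5⟩ := h0
  have hdeg : ∀ v, (G.neighborSet v).ncard ≤ G.maxDegree := by
    intro v
    rw [← Nat.card_coe_set_eq, Nat.card_eq_fintype_card, SimpleGraph.card_neighborSet_eq_degree]
    exact G.degree_le_maxDegree v
  obtain ⟨c, hc1, hc2, hc3⟩ := Pool.Agent.X211.LX.greedy_list G M H.verts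
    c₀ h1 (fun v hv => lt_of_le_of_lt (hdeg v) (hM v hv))
  have hck : ∀ v, c v ≤ k := by
    intro v
    by_cases hv : v ∈ H.verts
    · rw [hc1 v hv]
      exact h4 v hv
    · exact hMk v _ (hc2 v hv)
  let W : V → Finset ℕ := fun v => Finset.Icc (c v - (p - 1)) (c v + (p - 1))
  have hW : ∀ v, (W v).card ≤ 2 * p - 1 := by
    intro v
    simp only [W, Nat.card_Icc]
    omega
  have hWm : ∀ v x, x ∉ W v → (p : ℤ) ≤ |(x : ℤ) - c v| := by
    intro v x hx
    simp only [W, Finset.mem_Icc] at hx
    rw [le_abs]
    omega
  let T : V → Finset ℕ := fun v => W v ∪ ((H.neighborSet v).toFinset.image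
    fun u => f₀ s(v, u))
  have hT : ∀ v, (T v).card ≤ 2 * p - 1 + t := by
    intro v
    refine (Finset.card_union_le _ _).trans (Nat.add_le_add (hW v) ?_)
    refine Finset.card_image_le.trans ?_
    rw [← Set.ncard_eq_toFinset_card']
    exact ht v
  have hTe : ∀ u v, H.Adj u v → f₀ s(u, v) ∈ T u := by
    intro u v h
    refine Finset.mem_union_right _ (Finset.mem_image.2 ⟨v, ?_, rfl⟩)
    rw [Set.mem_toFinset]
    exact h
  let F : Sym2 V → Finset ℕ := fun e => Finset.range (k + 1) \ L e
  obtain ⟨f, hf1, hf2⟩ := Pool.Agent.X211.LX.forb (G \ H.spanningCoe) G.maxDegree (2 * p - 1 + t) q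
    (k + 1)
    (fun v => (Set.ncard_le_ncard (fun u hu => by
      rw [SimpleGraph.mem_neighborSet, SimpleGraph.sdiff_adj] at hu
      exact hu.1) (Set.toFinite _)).trans (hdeg v))
    T hT F (fun u v h => hL _ (G.mem_edgeSet.2 h.1)) (by omega) (by
      have h6 : ((2 * p - 1 + t : ℕ) : ℝ) = 2 * p - 1 + t := by
        rw [Nat.cast_add, Nat.cast_sub (by omega)]
        push_cast
        ring
      rw [h6]
      push_cast
      linarith)
  have hsd : ∀ u v, G.Adj u v → ¬ H.Adj u v → (G \ H.spanningCoe).Adj u v := by
    intro u v h h'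
    rw [SimpleGraph.sdiff_adj]
    exact ⟨h, h'⟩
  refine ⟨c, fun e => if e ∈ H.edgeSet then f₀ e else f e, ⟨hc3, ?_, ?_, hck, ?_⟩, hc1, hc2, ?_, ?_⟩
  · intro u v w huv huw hvw
    by_cases g1 : H.Adj u v
    · by_cases g2 : H.Adj u w
      · simp only [SimpleGraph.Subgraph.mem_edgeSet, if_pos g1, if_pos g2]
        exact h2 u v w g1 g2 hvw
      · simp only [SimpleGraph.Subgraph.mem_edgeSet, if_pos g1, if_neg g2]
        intro h
        exact (hf1 u w (hsd u w huw g2)).2.2 (h ▸ hTe u v g1)
    · by_cases g2 : H.Adj u w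
      · simp only [SimpleGraph.Subgraph.mem_edgeSet, if_neg g1, if_pos g2]
        intro h
        exact (hf1 u v (hsd u v huv g1)).2.2 (h ▸ hTe u w g2)
      · simp only [SimpleGraph.Subgraph.mem_edgeSet, if_neg g1, if_neg g2]
        exact hf2 u v w (hsd u v huv g1) (hsd u w huw g2) hvw
  · intro u v huv
    by_cases g1 : H.Adj u v
    · simp only [SimpleGraph.Subgraph.mem_edgeSet, if_pos g1]
      rw [hc1 u (H.edge_vert g1)]
      exact h3 u v g1
    · simp only [SimpleGraph.Subgraph.mem_edgeSet, if_neg g1]
      apply hWm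
      intro h
      exact (hf1 u v (hsd u v huv g1)).2.2 (Finset.mem_union_left _ h)
  · intro e
    induction e using Sym2.ind with
    | _ u v =>
      intro huv
      rw [SimpleGraph.mem_edgeSet] at huv
      by_cases g1 : H.Adj u v
      · simp only [SimpleGraph.Subgraph.mem_edgeSet, if_pos g1]
        exact h5 _ (SimpleGraph.Subgraph.mem_edgeSet.2 g1)
      · simp only [SimpleGraph.Subgraph.mem_edgeSet, if_neg g1]
        exact Nat.lt_succ_iff.1 (hf1 u v (hsd u v huv g1)).1
  · intro e he
    simp only [if_pos he]
  · intro e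
    induction e using Sym2.ind with
    | _ u v =>
      intro he he'
      simp only [if_neg he']
      rw [SimpleGraph.mem_edgeSet] at he
      rw [SimpleGraph.Subgraph.mem_edgeSet] at he'
      obtain ⟨h6, h7, -⟩ := hf1 u v (hsd u v he he')
      by_contra h8
      exact h7 (Finset.mem_sdiff.2 ⟨Finset.mem_range.2 h6, h8⟩)

end Pool.Agent.Results.MP_b8729f_co.PartialLabellings
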