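import Mathlib
import Pool.Agent.X73.HYS.Base
import Pool.Agent.X73.LEF.Mad
import Pool.Agent.Results.MP_2f9829_co.SparseGraphs
import Pool.Agent.Results.MP_b8729f_co.SparseGraphs

set_option autoImplicit false

/-!
# The Havet-Yu conjecture for sparse graphs and all `p` at once

The starting result `MP_b8729f_co.SparseGraphs` gives labellings of span `D + 2 p - 2` for graphs of
maximum degree `D` and maximum average degree `a` with `34 a (1 + log D) ≤ D`, if `p ≤ D / (4 a)`.
Such graphs have a proper edge colouring with `D` colours (starting result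
`MP_2f9829_co.SparseGraphs`), which together with a proper vertex colouring with `k` colours gives
labellings of span `D + 2 p - 2` for all `p ≥ k`.  The two ranges of `p` overlap if
`4 a (k - 1) ≤ D`.
-/

namespace Pool.Agent.Results.MP_b8729f_co.SparseAllP

open Pool.Agent.X73.LEF

/-- `TotalLabeling G p l`: the graph `G` has a `(p,1)`-total labeling of span `l`, that is, labels
`0, …, l` for the vertices (`fV`) and the edges (`fE`) such that adjacent vertices get different
labels, edges sharing an endpoint get different labels, and the labels of a vertex and of an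
incident edge differ by at least `p`. -/
def TotalLabeling {V : Type} (G : SimpleGraph V) (p l : ℕ) : Prop :=
  ∃ (fV : V → ℕ) (fE : Sym2 V → ℕ),
    (∀ v, fV v ≤ l) ∧ (∀ e ∈ G.edgeSet, fE e ≤ l) ∧
    (∀ u v, G.Adj u v → fV u ≠ fV v) ∧
    (∀ u v w, G.Adj u v → G.Adj u w → v ≠ w → fE s(u, v) ≠ fE s(u, w)) ∧
    (∀ u v, G.Adj u v → (p : ℤ) ≤ |(fV u : ℤ) - (fE s(u, v) : ℤ)|)

/-- The maximum average degree of `G` is at most `a`: every set `X` of vertices spans at most
`a |X| / 2` edges, that is, at most `a |X|` ordered pairs of adjacent vertices. -/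
def MadLe {V : Type} (G : SimpleGraph V) (a : ℝ) : Prop :=
  ∀ X : Finset V, ({e : V × V | e.1 ∈ X ∧ e.2 ∈ X ∧ G.Adj e.1 e.2}.ncard : ℝ) ≤ a * X.card

/-- For **every** `p ≥ 1` the graph `G` has a `(p,1)`-total labeling of span `D + 2 p - 2`. -/
def AllP {V : Type} (G : SimpleGraph V) (D : ℕ) : Prop :=
  ∀ p : ℕ, 1 ≤ p → TotalLabeling G p (D + 2 * p - 2)

theorem one_p {V : Type} [Fintype V] (G : SimpleGraph V) (D : ℕ)
    (hD : ∀ v, (G.neighborSet v).ncard ≤ D) (a : ℝ) (hmad : MadLe G a)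
    (ha : 34 * a * (1 + Real.log D) ≤ D) (p : ℕ) (hp : 1 ≤ p)
    (h : 4 * p * a ≤ D ∨ G.Colorable p) : TotalLabeling G p (D + 2 * p - 2) := by
  classical
  rcases h with h | h
  · obtain ⟨fV, fE, h1, h2, h3, h4, h5⟩ := SparseGraphs.span p hp V G D hD a hmad ha h
    exact ⟨fV, fE, h1, h2, h3, h5, h4⟩
  · obtain ⟨f, hf1, hf2⟩ := MP_2f9829_co.SparseGraphs.choosable V G D hD a hmad ha
      (fun _ => Finset.range D) (fun _ => by rw [Finset.card_range])
    obtain ⟨fV, fE, h1, h2, h3, h4, h5⟩ := Pool.Agent.X73.HYS.prod_lab G D p p hp h le_rfl f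
      (fun e => Finset.mem_range.1 (hf1 e)) hf2
    exact ⟨fV, fE, h1, h2, h3, h5, h4⟩

theorem allP {V : Type} [Fintype V] (G : SimpleGraph V) (D : ℕ)
    (hD : ∀ v, (G.neighborSet v).ncard ≤ D) (a : ℝ) (hmad : MadLe G a)
    (ha : 34 * a * (1 + Real.log D) ≤ D) (k : ℕ) (hk : G.Colorable k)
    (hak : 4 * a * ((k : ℝ) - 1) ≤ D) : AllP G D := by
  intro p hp
  refine one_p G D hD a hmad ha p hp ?_
  rcases le_or_gt k p with h | h
  · exact Or.inr (hk.mono h)
  · left
    rcases le_or_gt a 0 with h0 | h0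
    · have h1 : (4 : ℝ) * p * a ≤ 0 :=
        mul_nonpos_of_nonneg_of_nonpos (by positivity) h0
      exact le_trans h1 (Nat.cast_nonneg D)
    · have h1 : (p : ℝ) + 1 ≤ k := by exact_mod_cast h
      nlinarith

theorem allP_sq {V : Type} [Fintype V] (G : SimpleGraph V) (D : ℕ)
    (hD : ∀ v, (G.neighborSet v).ncard ≤ D) (a : ℝ) (hmad : MadLe G a)
    (ha : 34 * a * (1 + Real.log D) ≤ D) (ha2 : 4 * a ^ 2 ≤ D) : AllP G D := by
  refine allP G D hD a hmad ha _ (Pool.Agent.X73.HYS.col_of_mad G a hmad) ?_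
  push_cast
  rcases le_or_gt a 0 with h0 | h0
  · rw [Nat.floor_of_nonpos h0]
    simp
  · have h1 := Nat.floor_le h0.le
    nlinarith

theorem log_bound (x : ℝ) (hx : 200 ≤ x) : 17 * (1 + 2 * Real.log x) ≤ x := by
  have h1 : Real.log x = 8 * Real.log 2 + Real.log (x / 256) := by
    rw [Real.log_div (by linarith) (by norm_num), show (256 : ℝ) = 2 ^ 8 by norm_num,
      Real.log_pow]
    push_cast
    ring
  have h2 : Real.log (x / 256) = Real.log (200 / 256) + Real.log (x / 200) := by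
    rw [← Real.log_mul (by norm_num) (by positivity)]
    congr 1
    ring
  have h3 : Real.log (x / 200) ≤ x / 200 - 1 := Real.log_le_sub_one_of_pos (by positivity)
  have h4 : Real.log (200 / 256) ≤ 200 / 256 - 1 := Real.log_le_sub_one_of_pos (by norm_num)
  have h5 := Real.log_two_lt_d9
  linarith

/-- Let `G` be a finite graph with `n` vertices, all degrees at most `D` and an adjacency matrix of
real rank `r`.  In each of the following cases `G` has a `(p,1)`-total labeling of span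
`D + 2 p - 2` for **every** `p ≥ 1`.
(1) `G` is `k`-colourable and has maximum average degree at most `a`, where
`34 a (1 + log D) ≤ D` and `4 a (k - 1) ≤ D`; the second condition may be dropped if
`2 (k - 1) ≤ 17 (1 + log D)`.
(2) `G` has maximum average degree at most `a`, where `34 a (1 + log D) ≤ D` and `4 a² ≤ D`.
(3) `G` has maximum average degree at most `√D / 2` and `D ≥ 40000`.
(4) `G` does not contain `F`, where `ex(m, F) ≤ C m^(1+α)` for all `m ≥ 1`,
`68 C n^α (1 + log D) ≤ D`, and `(4 C n^α)² ≤ D`, or `G` is `k`-colourable and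
`2 (k - 1) ≤ 17 (1 + log D)`.
(5) `G` does not contain a cycle of length `2 l`, `l ≥ 2`, `68 l (2 l - 3) r^(1/l) (1 + log D) ≤ D`,
and `(4 l (2 l - 3) r^(1/l))² ≤ D`, or `G` is `k`-colourable and `2 (k - 1) ≤ 17 (1 + log D)`.
Moreover, if only `G` has maximum average degree at most `a` and `34 a (1 + log D) ≤ D`, then
(6) `G` has such a labeling for every `p ≥ 1` with `p ≤ D / (4 a)` or `p ≥ χ(G)`. -/
theorem result (V : Type) [Fintype V] [DecidableEq V] (G : SimpleGraph V) [DecidableRel G.Adj]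
    (D : ℕ) (hD : ∀ v, (G.neighborSet v).ncard ≤ D) :
    (∀ (a : ℝ) (k : ℕ), MadLe G a → G.Colorable k → 34 * a * (1 + Real.log D) ≤ D →
      (4 * a * ((k : ℝ) - 1) ≤ D ∨ 2 * ((k : ℝ) - 1) ≤ 17 * (1 + Real.log D)) → AllP G D) ∧
    (∀ a : ℝ, MadLe G a → 34 * a * (1 + Real.log D) ≤ D → 4 * a ^ 2 ≤ D → AllP G D) ∧
    (MadLe G (√D / 2) → 40000 ≤ D → AllP G D) ∧
    (∀ (U : Type) (F : SimpleGraph U) (C α : ℝ), 0 ≤ C → 0 ≤ α →
      (∀ m : ℕ, 1 ≤ m → (SimpleGraph.extremalNumber m F : ℝ) ≤ C * (m : ℝ) ^ (1 + α)) →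
      F.Free G → 68 * C * (Fintype.card V : ℝ) ^ α * (1 + Real.log D) ≤ D →
      ((4 * C * (Fintype.card V : ℝ) ^ α) ^ 2 ≤ D ∨
        ∃ k : ℕ, G.Colorable k ∧ 2 * ((k : ℝ) - 1) ≤ 17 * (1 + Real.log D)) → AllP G D) ∧
    (∀ l : ℕ, 2 ≤ l → (SimpleGraph.cycleGraph (2 * l)).Free G →
      68 * (l * (2 * l - 3)) * ((G.adjMatrix ℝ).rank : ℝ) ^ (1 / (l : ℝ)) *
        (1 + Real.log D) ≤ D →
      ((4 * (l * (2 * l - 3)) * ((G.adjMatrix ℝ).rank : ℝ) ^ (1 / (l : ℝ))) ^ 2 ≤ D ∨
        ∃ k : ℕ, G.Colorable k ∧ 2 * ((k : ℝ) - 1) ≤ 17 * (1 + Real.log D)) → AllP G D) ∧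
    (∀ a : ℝ, MadLe G a → 34 * a * (1 + Real.log D) ≤ D → ∀ p : ℕ, 1 ≤ p →
      (4 * p * a ≤ D ∨ G.Colorable p) → TotalLabeling G p (D + 2 * p - 2)) := by
  have hlog : 0 ≤ Real.log D := Real.log_natCast_nonneg D
  have hone : ∀ (a : ℝ) (k : ℕ), MadLe G a → G.Colorable k → 34 * a * (1 + Real.log D) ≤ D →
      (4 * a * ((k : ℝ) - 1) ≤ D ∨ 2 * ((k : ℝ) - 1) ≤ 17 * (1 + Real.log D)) → AllP G D := by
    intro a k hmad hk ha h
    rcases Nat.eq_zero_or_pos k with hk0 | hk0
    · subst hk0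
      refine allP G D hD a hmad ha 1 (hk.mono (by omega)) ?_
      simp
    · refine allP G D hD a hmad ha k hk ?_
      have h1 : (1 : ℝ) ≤ k := by exact_mod_cast hk0
      rcases h with h | h
      · exact h
      · rcases le_or_gt a 0 with h0 | h0
        · have h2 : 4 * a * ((k : ℝ) - 1) ≤ 0 :=
            mul_nonpos_of_nonpos_of_nonneg (by linarith) (by linarith)
          exact le_trans h2 (Nat.cast_nonneg D)
        · nlinarith
  refine ⟨hone, ?_, ?_, ?_, ?_, ?_⟩
  · intro a hmad ha ha2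
    exact allP_sq G D hD a hmad ha ha2
  · intro hmad h4
    have hD0 : (0 : ℝ) ≤ D := Nat.cast_nonneg D
    have hDr : (40000 : ℝ) ≤ D := by exact_mod_cast h4
    have hs : (200 : ℝ) ≤ √D := by
      rw [show (200 : ℝ) = √40000 by
        rw [show (40000 : ℝ) = 200 ^ 2 by norm_num, Real.sqrt_sq (by norm_num)]]
      exact Real.sqrt_le_sqrt hDr
    have hss : √(D : ℝ) * √D = D := Real.mul_self_sqrt hD0
    have hl : Real.log D = 2 * Real.log √D := by
      rw [Real.log_sqrt hD0]
      ring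
    refine allP_sq G D hD _ hmad ?_ ?_
    · have h1 := log_bound (√D) hs
      rw [hl]
      nlinarith
    · nlinarith
  · intro U F C α hC hα hex hG hn h
    have hm := mad_free F hC hα hex G hG
    have h34 : 34 * (2 * (C * (Fintype.card V : ℝ) ^ α)) * (1 + Real.log D) ≤ D := by
      refine le_trans (le_of_eq ?_) hn
      ring
    rcases h with h | ⟨k, hk, h⟩
    · refine allP_sq G D hD _ hm h34 (le_trans (le_of_eq ?_) h)
      ring
    · exact hone _ k hm hk h34 (Or.inr h)
  · intro l hl hG hn h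
    have hm := mad_even G hl hG
    have h34 : 34 * (2 * (l * (2 * l - 3) * ((G.adjMatrix ℝ).rank : ℝ) ^ (1 / (l : ℝ)))) *
        (1 + Real.log D) ≤ D := by
      refine le_trans (le_of_eq ?_) hn
      ring
    rcases h with h | ⟨k, hk, h⟩
    · refine allP_sq G D hD _ hm h34 (le_trans (le_of_eq ?_) h)
      ring
    · exact hone _ k hm hk h34 (Or.inr h)
  · intro a hmad ha p hp h
    exact one_p G D hD a hmad ha p hp h

end Pool.Agent.Results.MP_b8729f_co.SparseAllP
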